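import Mathlib

set_option autoImplicit false

namespace Pool.Agent.MP_07406a_pr

open Filter Topology
open scoped ENNReal

variable {d : ℕ}

/-- The coupling constants `J x y = ψ (x - y) * exp (-|x - y|)` for `x ≠ y`, `J x x = 0`. -/
noncomputable def J (N : (Fin d → ℝ) → ℝ) (ψ : (Fin d → ℤ) → ℝ) (x y : Fin d → ℤ) : ℝ :=
  if x = y then 0 else ψ (x - y) * Real.exp (-N (fun i => ((x - y) i : ℝ)))

/-- The standing assumptions: `N` is a norm on `ℝ^d`; `ψ ≥ 0`, `ψ y > 0` for `y ≠ 0`,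
`log (ψ y) / |y| → 0` as `|y| → ∞`; both are invariant under the lattice symmetries (signed
permutations of the coordinates); and `∑ x, J 0 x = 1`. -/
def Admissible (N : (Fin d → ℝ) → ℝ) (ψ : (Fin d → ℤ) → ℝ) : Prop :=
  (∀ x y, N (x + y) ≤ N x + N y) ∧
  (∀ (c : ℝ) x, N (c • x) = |c| * N x) ∧
  (∀ x, N x = 0 → x = 0) ∧
  (∀ y, 0 ≤ ψ y) ∧
  (∀ y, y ≠ 0 → 0 < ψ y) ∧
  Tendsto (fun y : Fin d → ℤ => Real.log (ψ y) / N (fun i => (y i : ℝ)))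
    (comap (fun y : Fin d → ℤ => N (fun i => (y i : ℝ))) atTop) (𝓝 0) ∧
  (∀ (σ : Equiv.Perm (Fin d)) (ε : Fin d → ℤ), (∀ i, ε i = 1 ∨ ε i = -1) →
    (∀ x, N (fun i => (ε i : ℝ) * x (σ i)) = N x) ∧ ∀ y, ψ (fun i => ε i * y (σ i)) = ψ y) ∧
  HasSum (fun x => J N ψ 0 x) 1

/-- The two-point function of the killed random walk: the sum, over all finite walks
`γ = (γ 0, …, γ n)` from `x` to `y`, of the product of the weights `lam * J` of the steps. -/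
noncomputable def G (N : (Fin d → ℝ) → ℝ) (ψ : (Fin d → ℤ) → ℝ) (lam : ℝ) (x y : Fin d → ℤ) :
    ℝ≥0∞ :=
  ∑' n : ℕ, ∑' γ : Fin (n + 1) → (Fin d → ℤ),
    if γ 0 = x ∧ γ (Fin.last n) = y then
      ∏ i : Fin n, ENNReal.ofReal (lam * J N ψ (γ i.castSucc) (γ i.succ))
    else 0

/-- The threshold `λ_c = sup {λ ≥ 0 : ∑ x, G_λ(0, x) < ∞}`. -/
noncomputable def lamC (N : (Fin d → ℝ) → ℝ) (ψ : (Fin d → ℤ) → ℝ) : ℝ :=
  sSup {lam : ℝ | 0 ≤ lam ∧ ∑' x, G N ψ lam 0 x < ⊤}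

/-- The sequence `-(1/n) log G_λ(0, n s)`, where `n s` stands for the lattice point `z` with
`n s ∈ z + [-1/2, 1/2)^d`. -/
noncomputable def rate (N : (Fin d → ℝ) → ℝ) (ψ : (Fin d → ℤ) → ℝ) (s : Fin d → ℝ) (lam : ℝ)
    (n : ℕ) : ℝ :=
  -(1 / (n : ℝ)) * Real.log (G N ψ lam 0 (fun i => ⌊(n : ℝ) * s i + 1 / 2⌋)).toReal

/-- The inverse correlation length `ν_s(λ)`. -/
noncomputable def nu (N : (Fin d → ℝ) → ℝ) (ψ : (Fin d → ℤ) → ℝ) (s : Fin d → ℝ) (lam : ℝ) : ℝ :=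
  limUnder atTop (rate N ψ s lam)

/-- `λ_exp = min (λ_c, inf {λ : inf_s ν_s(λ) = 0})`, `s` ranging over the Euclidean unit sphere. -/
noncomputable def lamExp (N : (Fin d → ℝ) → ℝ) (ψ : (Fin d → ℤ) → ℝ) : ℝ :=
  sInf (insert (lamC N ψ) {lam : ℝ | 0 < lam ∧ lam < lamC N ψ ∧
    ⨅ s : {s : Fin d → ℝ // ∑ i, s i ^ 2 = 1}, nu N ψ s lam = 0})

/-- `λ_sat(s) = sup {λ : ν_s(λ) = |s|}`. -/
noncomputable def lamSat (N : (Fin d → ℝ) → ℝ) (ψ : (Fin d → ℤ) → ℝ) (s : Fin d → ℝ) : ℝ :=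
  sSup {lam : ℝ | 0 < lam ∧ lam < lamC N ψ ∧ nu N ψ s lam = N s}

end Pool.Agent.MP_07406a_pr
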